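import Pool.Agent.H91.Sz3

set_option autoImplicit false

open Pool.Agent.H91.Sz in
theorem Pool.Agent.Results.MP_d36490_an.Bound.result :
    ∀ (p q : ℕ) (lam : ℂ) (a : Fin p → ℂ) (b : Fin q → ℂ),
    (∀ k, ∀ m : ℕ, a k ≠ -m) → (∀ k, ∀ m : ℕ, b k ≠ -m) →
    ∃ M : ℝ, ∀ n : ℕ, 1 ≤ n → A lam a b n n ≠ 0 → ∀ z : ℂ,
      ∑ j ∈ Finset.range (n + 1), A lam a b n j * z ^ j = 0 →
        ‖z‖ ≤ M * (n : ℝ) ^ ((q : ℤ) - p - 1) :=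
  main
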